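import Pool.Agent.Helper74.NW.Model

/-!
# Basic facts
-/

namespace Pool.Agent.Helper74.NW

open Pool.Agent.Helper19.NF

section net

variable {U D B : Type} [Fintype D] [AddCommGroup B]

theorem val_zero (g : D → Equiv.Perm U) (x0 : U → B) (I : B → D → B) (u : U) : val g x0 I 0 u = x0 u := rfl

theorem val_succ (g : D → Equiv.Perm U) (x0 : U → B) (I : B → D → B) (i : ℕ) (u : U) :
    val g x0 I (i + 1) u = ∑ c, I (val g x0 I i (g c u)) c := rfl

/-- All elements of the rows `0, ..., i` are different. -/
def CF (g : D → Equiv.Perm U) (x0 : U → B) (i : ℕ) (I : B → D → B) : Prop :=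
  ∀ j j' u u', j ≤ i → j' ≤ i → val g x0 I j u = val g x0 I j' u' → j = j' ∧ u = u'

theorem CF.mono {g : D → Equiv.Perm U} {x0 : U → B} {i i' : ℕ} {I : B → D → B}
    (h : CF g x0 i I) (hi : i' ≤ i) : CF g x0 i' I :=
  fun j j' u u' hj hj' e => h j j' u u' (hj.trans hi) (hj'.trans hi) e

/-- Changing the contents of the cells given by row `i`: the rows up to `i` do not change. -/
theorem val_add {g : D → Equiv.Perm U} {x0 : U → B} {i : ℕ} {I : B → D → B} (h : CF g x0 i I)
    (δ : B → D → B) (hδ : ∀ b, δ b ≠ 0 → ∃ v, b = val g x0 I i v) :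
    ∀ j ≤ i, ∀ u, val g x0 (I + δ) j u = val g x0 I j u := by
  intro j
  induction j with
  | zero => intro _ u; rfl
  | succ j ih =>
    intro hj u
    rw [val_succ, val_succ]
    refine Finset.sum_congr rfl fun s _ => ?_
    rw [ih (by omega), Pi.add_apply, Pi.add_apply]
    have h1 : δ (val g x0 I j (g s u)) = 0 := by
      by_contra h2
      obtain ⟨v, h3⟩ := hδ _ h2
      have h4 := (h j i (g s u) v (by omega) le_rfl h3).1
      omega
    rw [h1, Pi.zero_apply, add_zero]

/-- The effect on row `i + 1`. -/
theorem val_add_succ {g : D → Equiv.Perm U} {x0 : U → B} {i : ℕ} {I : B → D → B}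
    (h : CF g x0 i I) (δ : B → D → B) (hδ : ∀ b, δ b ≠ 0 → ∃ v, b = val g x0 I i v) (u : U) :
    val g x0 (I + δ) (i + 1) u = val g x0 I (i + 1) u + ∑ s, δ (val g x0 I i (g s u)) s := by
  rw [val_succ, val_succ, ← Finset.sum_add_distrib]
  refine Finset.sum_congr rfl fun s _ => ?_
  rw [val_add h δ hδ i le_rfl, Pi.add_apply, Pi.add_apply]

/-- The effect on the result, for `i = R`. -/
theorem res_add [Fintype U] {g : D → Equiv.Perm U} {x0 : U → B} {R : ℕ} {I : B → D → B} (c : D)
    (h : CF g x0 R I) (δ : B → D → B) (hδ : ∀ b, δ b ≠ 0 → ∃ v, b = val g x0 I R v) :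
    res g x0 R c (I + δ) = res g x0 R c I + ∑ u, δ (val g x0 I R u) c := by
  unfold res
  rw [← Finset.sum_add_distrib]
  refine Finset.sum_congr rfl fun u _ => ?_
  rw [val_add h δ hδ R le_rfl, Pi.add_apply, Pi.add_apply]

theorem CF_add {g : D → Equiv.Perm U} {x0 : U → B} {i : ℕ} {I : B → D → B} (h : CF g x0 i I)
    (δ : B → D → B) (hδ : ∀ b, δ b ≠ 0 → ∃ v, b = val g x0 I i v) : CF g x0 i (I + δ) := by
  intro j j' u u' hj hj' e
  rw [val_add h δ hδ j hj, val_add h δ hδ j' hj'] at e
  exact h j j' u u' hj hj' e

end net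

/-! ## Runs -/

section runs

variable {C W Z : Type} {S : ℕ} {P : NProg C W Z S}

theorem run_append {I : C → W} {s r t : Fin S} {a b : List C} (ha : P.Run I s a r) (hb : P.Run I r b t) :
    P.Run I s (a ++ b) t := by
  induction ha with
  | nil s => exact hb
  | cons s s' t' c next l h1 h2 _ ih => exact NProg.Run.cons s s' t c next (l ++ b) h1 h2 (ih hb)

theorem run_split {I : C → W} (a : List C) : ∀ {s t : Fin S} {b : List C}, P.Run I s (a ++ b) t →
    ∃ r, P.Run I s a r ∧ P.Run I r b t := by
  induction a with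
  | nil =>
    intro s t b h
    exact ⟨s, NProg.Run.nil s, h⟩
  | cons c a ih =>
    intro s t b h
    cases h with
    | cons _ s' _ _ next _ h1 h2 h3 =>
      obtain ⟨r, hr1, hr2⟩ := ih h3
      exact ⟨r, NProg.Run.cons s s' r c next a h1 h2 hr1, hr2⟩

theorem run_congr {I I' : C → W} {s t : Fin S} {l : List C} (h : P.Run I s l t) (hI : ∀ c ∈ l, I c = I' c) :
    P.Run I' s l t := by
  induction h with
  | nil s => exact NProg.Run.nil s
  | cons s s' t' c next l h1 h2 _ ih =>
    refine NProg.Run.cons s s' t' c next l h1 ?_ (ih fun c' hc' => hI c' (List.mem_cons_of_mem _ hc'))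
    rw [← hI c List.mem_cons_self]
    exact h2

/-- A run of minimal length has fewer queries than there are states. -/
theorem run_short {I : C → W} {s t : Fin S} {l : List C} (h : P.Run I s l t)
    (hmin : ∀ l', P.Run I s l' t → l.length ≤ l'.length) : l.length < S := by
  have h1 : ∀ m, m ≤ l.length → ∃ r, P.Run I s (l.take m) r ∧ P.Run I r (l.drop m) t := by
    intro m _
    exact run_split _ (by rw [List.take_append_drop]; exact h)
  by_contra hS
  push Not at hS
  have h2 : ∀ m : Fin (S + 1), ∃ r, P.Run I s (l.take m) r ∧ P.Run I r (l.drop m) t :=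
    fun m => h1 m (by have := m.2; omega)
  choose f hf using h2
  obtain ⟨x, y, hxy, hfxy⟩ := Fintype.exists_ne_map_eq_of_card_lt f (by simp)
  wlog hlt : x < y generalizing x y
  · exact this y x hxy.symm hfxy.symm (lt_of_le_of_ne (not_lt.mp hlt) hxy.symm)
  have h3 : P.Run I s (l.take x ++ l.drop y) t := run_append (hf x).1 (by rw [hfxy]; exact (hf y).2)
  have h4 := hmin _ h3
  rw [List.length_append, List.length_take, List.length_drop] at h4
  have h5 := y.2
  have h6 : (x : ℕ) < y := hlt
  omega

/-! ## The choice of a computation -/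

/-- The list as a number: its elements are the digits. -/
def num {K : ℕ} (e : C → Fin K) : List C → ℕ
  | [] => 0
  | c :: l => (e c : ℕ) * K ^ l.length + num e l

theorem num_append {K : ℕ} (e : C → Fin K) (a b : List C) :
    num e (a ++ b) = num e a * K ^ b.length + num e b := by
  induction a with
  | nil => simp [num]
  | cons c a ih =>
    show (e c : ℕ) * K ^ (a ++ b).length + num e (a ++ b) = ((e c : ℕ) * K ^ a.length + num e a) * K ^ b.length + num e b
    rw [ih, List.length_append, pow_add]
    ring

theorem num_lt {K : ℕ} (e : C → Fin K) (l : List C) : num e l < K ^ l.length := by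
  induction l with
  | nil => simp [num]
  | cons c l ih =>
    show (e c : ℕ) * K ^ l.length + num e l < K ^ (l.length + 1)
    have h1 : (e c : ℕ) + 1 ≤ K := (e c).2
    calc (e c : ℕ) * K ^ l.length + num e l < (e c : ℕ) * K ^ l.length + K ^ l.length := Nat.add_lt_add_left ih _
      _ = ((e c : ℕ) + 1) * K ^ l.length := by ring
      _ ≤ K * K ^ l.length := Nat.mul_le_mul_right _ h1
      _ = K ^ (l.length + 1) := by ring

theorem num_inj {K : ℕ} {e : C → Fin K} (he : Function.Injective e) : ∀ {l l' : List C}, l.length = l'.length →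
    num e l = num e l' → l = l' := by
  intro l
  induction l with
  | nil =>
    intro l' hl _
    cases l' with
    | nil => rfl
    | cons c' l' => simp at hl
  | cons c l ih =>
    intro l' hl hn
    cases l' with
    | nil => simp at hl
    | cons c' l' =>
      have hl' : l.length = l'.length := by simpa using hl
      have hn' : (e c : ℕ) * K ^ l.length + num e l = (e c' : ℕ) * K ^ l'.length + num e l' := hn
      rw [← hl'] at hn'
      have h1 := num_lt e l
      have h2 := num_lt e l'
      rw [← hl'] at h2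
      have h3 : (e c : ℕ) = e c' := by
        have h4 : ((e c : ℕ) * K ^ l.length + num e l) / K ^ l.length = e c := by
          rw [Nat.add_comm, Nat.add_mul_div_right _ _ (by omega), Nat.div_eq_of_lt h1, zero_add]
        have h5 : ((e c' : ℕ) * K ^ l.length + num e l') / K ^ l.length = e c' := by
          rw [Nat.add_comm, Nat.add_mul_div_right _ _ (by omega), Nat.div_eq_of_lt h2, zero_add]
        rw [← h4, hn', h5]
      rw [h3] at hn'
      have h6 : num e l = num e l' := by omega
      rw [he (Fin.ext h3), ih hl' h6]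

/-- A run of minimal length, and with the smallest number among those. -/
structure Best {K : ℕ} (P : NProg C W Z S) (e : C → Fin K) (I : C → W) (s : Fin S) (w : List C) (t : Fin S) :
    Prop where
  run : P.Run I s w t
  len : ∀ w', P.Run I s w' t → w.length ≤ w'.length
  num : ∀ w', P.Run I s w' t → w'.length = w.length → num e w ≤ num e w'

variable {K : ℕ} {e : C → Fin K} {I : C → W}

theorem Best.window {s t : Fin S} {a w b : List C} (h : Best P e I s (a ++ w ++ b) t) :
    ∃ s' t', Best P e I s' w t' := by
  obtain ⟨t', h1, h2⟩ := run_split _ h.run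
  obtain ⟨s', h3, h4⟩ := run_split _ h1
  refine ⟨s', t', h4, fun w' hw' => ?_, fun w' hw' hl => ?_⟩
  · have h5 := h.len _ (run_append (run_append h3 hw') h2)
    simp only [List.length_append] at h5
    omega
  · have h5 := h.num _ (run_append (run_append h3 hw') h2) (by simp only [List.length_append]; omega)
    rw [num_append, num_append, num_append, num_append, hl] at h5
    have h6 := Nat.add_le_add_iff_right.mp h5
    rcases Nat.eq_zero_or_pos (K ^ b.length) with h7 | h7
    · -- `K = 0`: there are no cells, the lists are empty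
      have h8 : K = 0 := by
        by_contra h9
        exact (pow_ne_zero _ h9) h7
      subst h8
      have h9 : w = [] := by
        cases w with
        | nil => rfl
        | cons c w => exact (e c).elim0
      rw [h9]
      exact Nat.zero_le _
    · have h8 := Nat.le_of_mul_le_mul_right h6 h7
      omega

theorem exists_best (e : C → Fin K) {l₀ : List C} {z₀ : Z} (h : P.Ends I l₀ z₀) :
    ∃ l z t, Best P e I P.start l t ∧ P.act t = Sum.inr z ∧ P.Shortest I l z := by
  classical
  have hex : ∃ n, ∃ l z, P.Ends I l z ∧ l.length = n := ⟨_, l₀, z₀, h, rfl⟩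
  obtain ⟨l₁, z₁, h1, h2⟩ := Nat.find_spec hex
  have hmin : ∀ l z, P.Ends I l z → Nat.find hex ≤ l.length := fun l z hl => Nat.find_min' hex ⟨l, z, hl, rfl⟩
  have hex2 : ∃ p, ∃ l z, P.Ends I l z ∧ l.length = Nat.find hex ∧ NW.num e l = p := ⟨_, l₁, z₁, h1, h2, rfl⟩
  obtain ⟨l, z, ⟨t, h3, h4⟩, h5, h6⟩ := Nat.find_spec hex2
  refine ⟨l, z, t, ⟨h3, fun w' hw' => ?_, fun w' hw' hl => ?_⟩, h4, ⟨t, h3, h4⟩, fun l' z' hl' => ?_⟩
  · rw [h5]
    exact hmin w' z ⟨t, hw', h4⟩
  · rw [h6]
    exact Nat.find_min' hex2 ⟨w', z, ⟨t, hw', h4⟩, by rw [hl, h5], rfl⟩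
  · rw [h5]
    exact hmin l' z' hl'

/-- Two best runs between the same states, each of which is valid for both inputs, are equal. -/
theorem Best.unique {I' : C → W} {s t : Fin S} {w w' : List C} (he : Function.Injective e) (h : Best P e I s w t)
    (h' : Best P e I' s w' t) (h1 : P.Run I s w' t) (h2 : P.Run I' s w t) : w = w' := by
  have hl : w.length = w'.length := le_antisymm (h.len _ h1) (h'.len _ h2)
  exact num_inj he hl (le_antisymm (h.num _ h1 hl.symm) (h'.num _ h2 hl))

/-- A shortest computation has fewer queries than there are states. -/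
theorem shortest_lt {l : List C} {z : Z} (h : P.Shortest I l z) : l.length < S := by
  obtain ⟨⟨t, h1, h2⟩, h3⟩ := h
  exact run_short h1 fun l' hl' => h3 l' z ⟨t, hl', h2⟩

end runs

end Pool.Agent.Helper74.NW
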