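import Pool.Agent.Helper19.NF.Model

/-!
# Nondeterministic programs which inspect less than half of the cells: the model
-/

namespace Pool.Agent.Helper74.NW

open Pool.Agent.Helper19.NF

/-- A nondeterministic branching program with `S` states for input cells `C` with contents in `W`: each state either
queries a cell (and moves, depending on its content, to one of a set of states) or is final with a result in `Z`. -/
structure NProg (C W Z : Type) (S : ℕ) where
  start : Fin S
  act : Fin S → (C × (W → Set (Fin S))) ⊕ Z

/-- `P.Run I s l t`: on the input `I` the program can go from the state `s` to the state `t`, querying the cells in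
the list `l`, in this order. -/
inductive NProg.Run {C W Z : Type} {S : ℕ} (P : NProg C W Z S) (I : C → W) : Fin S → List C → Fin S → Prop
  | nil (s : Fin S) : P.Run I s [] s
  | cons (s s' t : Fin S) (c : C) (next : W → Set (Fin S)) (l : List C) :
      P.act s = Sum.inl (c, next) → s' ∈ next (I c) → P.Run I s' l t → P.Run I s (c :: l) t

/-- Some computation on the input `I` queries the cells in the list `l` and reaches a final state with result `z`. -/
def NProg.Ends {C W Z : Type} {S : ℕ} (P : NProg C W Z S) (I : C → W) (l : List C) (z : Z) : Prop :=
  ∃ t, P.Run I P.start l t ∧ P.act t = Sum.inr z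

/-- The same, and no computation on `I` which reaches a final state is shorter. -/
def NProg.Shortest {C W Z : Type} {S : ℕ} (P : NProg C W Z S) (I : C → W) (l : List C) (z : Z) : Prop :=
  P.Ends I l z ∧ ∀ l' z', P.Ends I l' z' → l.length ≤ l'.length

/-- The instructions of a nondeterministic branching program with a pushdown store: query a cell and move, depending on
its content, to one of a set of states; push a symbol; pop a symbol; give the result. -/
inductive NPAct (C W Z Q Γ : Type)
  | ask (c : C) (next : W → Set Q) : NPAct C W Z Q Γ
  | push (next : Set (Γ × Q)) : NPAct C W Z Q Γ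
  | pop (next : Γ → Set Q) : NPAct C W Z Q Γ
  | out (z : Z) : NPAct C W Z Q Γ

/-- A nondeterministic branching program with a pushdown store: states `Q`, stack symbols `Γ`. -/
structure NPProg (C W Z Q Γ : Type) where
  start : Q
  act : Q → NPAct C W Z Q Γ

/-- `P.Run I x l n y`: on the input `I` the program can go in `n` steps from the configuration `x` (state and stack) to
the configuration `y`, querying the cells in the list `l`, in this order. -/
inductive NPProg.Run {C W Z Q Γ : Type} (P : NPProg C W Z Q Γ) (I : C → W) :
    Q × List Γ → List C → ℕ → Q × List Γ → Prop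
  | nil (x : Q × List Γ) : P.Run I x [] 0 x
  | ask (q q' : Q) (st : List Γ) (c : C) (next : W → Set Q) (l : List C) (n : ℕ) (y : Q × List Γ) :
      P.act q = .ask c next → q' ∈ next (I c) → P.Run I (q', st) l n y → P.Run I (q, st) (c :: l) (n + 1) y
  | push (q q' : Q) (st : List Γ) (γ : Γ) (next : Set (Γ × Q)) (l : List C) (n : ℕ) (y : Q × List Γ) :
      P.act q = .push next → (γ, q') ∈ next → P.Run I (q', γ :: st) l n y → P.Run I (q, st) l (n + 1) y
  | pop (q q' : Q) (st : List Γ) (γ : Γ) (next : Γ → Set Q) (l : List C) (n : ℕ) (y : Q × List Γ) :
      P.act q = .pop next → q' ∈ next γ → P.Run I (q', st) l n y → P.Run I (q, γ :: st) l (n + 1) y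

/-- Some computation of `n` steps on the input `I` queries the cells in the list `l` and reaches a final state with
result `z`. -/
def NPProg.Ends {C W Z Q Γ : Type} (P : NPProg C W Z Q Γ) (I : C → W) (l : List C) (n : ℕ) (z : Z) : Prop :=
  ∃ y, P.Run I (P.start, []) l n y ∧ P.act y.1 = .out z

/-- The result: the sum of the entries number `c` of the cells given by the elements of the row `R`. -/
def res {U D B : Type} [Fintype U] [Fintype D] [AddCommGroup B] (g : D → Equiv.Perm U) (x0 : U → B) (R : ℕ) (c : D)
    (I : B → D → B) : B :=
  ∑ u, I (val g x0 I R u) c

end Pool.Agent.Helper74.NW
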