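import Pool.Agent.Helper74.NW.Win

/-!
# Frame (only for the work, not for the graded result)
-/

namespace Pool.Agent.Helper74.NW.Frame

open Pool.Agent.Helper74.NW Pool.Agent.Helper19.NF
open Pool.Agent.Helper74.NS (Expands)

section general

variable {U D B : Type} [Fintype U] [Fintype D] [AddCommGroup B]

/-- W1 (helper60): few instances have two equal elements in the rows `0, ..., R`. -/
theorem card_not_CF [Fintype B] [Nonempty D] (g : D → Equiv.Perm U) (x0 : U → B)
    (h0 : Function.Injective x0) (R : ℕ) :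
    Nat.card {I : B → D → B // ¬ CF g x0 R I} * Fintype.card B ≤
      ((R + 1) * Fintype.card U) ^ 2 * Nat.card (B → D → B) := sorry

/-- W7 (helper96): the deterministic pushdown program. -/
theorem pushdown_program [Fintype B] [Nonempty D] [Nonempty U] (g : D → Equiv.Perm U) (x0 : U → B) (R : ℕ) (c : D)
    (hB : (R + 1) * Fintype.card U ≤ Fintype.card B) (hB2 : 2 ≤ Fintype.card B) :
    ∃ (Q Γ : Type) (_ : Finite Q) (_ : Finite Γ) (P : PProg B (D → B) B Q Γ),
      Nat.card Q ≤ (Fintype.card D * Fintype.card B) ^ 4 ∧ Nat.card Γ ≤ (Fintype.card D * Fintype.card B) ^ 2 ∧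
      ∀ I, P.Outputs I (res g x0 R c I) ∧ Nat.card {b // P.Asks I b} ≤ (R + 1) * Fintype.card U := sorry

/-- WU (helper84): the deterministic program which keeps a row. -/
theorem row_program [Fintype B] [Nonempty D] [Nonempty U] (g : D → Equiv.Perm U) (x0 : U → B) (R : ℕ) (c : D) :
    ∃ S ≤ ((R + 1) * Fintype.card U + 1) * Fintype.card B ^ (2 * Fintype.card U),
      ∃ P : NProg B (D → B) B S, (∀ s b next, P.act s = Sum.inl (b, next) → ∀ w, ∃ t, next w = {t}) ∧
      ∀ I, ∃ l, P.Ends I l (res g x0 R c I) ∧ (∀ l' z, P.Ends I l' z → l' = l ∧ z = res g x0 R c I) ∧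
        Nat.card {b // b ∈ l} ≤ (R + 1) * Fintype.card U := sorry

end general

section lpn

variable {C W Z Q Γ : Type}

/-- WQ (helper1): `sim` for separate types of contents and results (Der, ends_iff_der adapted too). -/
theorem sim [Fintype Q] (P : NPProg C W Z Q Γ) (c0 : C) (m : ℕ) :
    ∃ S ≤ (2 * Fintype.card Q ^ 2 + 2) ^ (m + 2), ∃ P' : NProg C W Z S, ∀ I,
      (∀ l n z, P.Ends I l n z → n ≤ 2 ^ m → ∃ l', P'.Ends I (c0 :: l') z ∧ l'.Perm l) ∧
      (∀ l' z, P'.Ends I l' z → ∃ l n, P.Ends I l n z ∧ l'.Perm (c0 :: l)) := sorry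

end lpn

variable {n d h : ℕ} {B : Type} [AddCommGroup B] [NeZero (2 * h)] {S K : ℕ}

/-- W2 (helper1 or 66): without windows with many half done nodes the computation is long. A window with at least `2 a`
nodes in `outs (i + 1)` and less than `a` in `half i` has at least `a` nodes whose `g s u` are all in `full i`, so
`4 a ≤ (full i w).card`; cut `w` after the shortest prefix in which `2 a` of these have `h` letters: the others have
`h` letters in the rest. -/
theorem long {g : Fin d → Equiv.Perm (Fin n)} {x0 : Fin n × Fin (2 * h) → B} {R a : ℕ}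
    {I : B → Fin d × Fin (2 * h) → B} (hE : Expands g a) (hI : CF (fine g) x0 R I) (l : List B)
    (hl : 2 * a ≤ (outs g x0 I R l).card)
    (hh : ∀ i < R, ∀ p w q, l = p ++ w ++ q → (half g x0 I i w).card < a) : 2 ^ R * (2 * a) ≤ l.length := sorry

/-- W3 (helper74): a class is small. -/
theorem class_bound [Fintype B] (P : NProg B (Fin d × Fin (2 * h) → B) B S) (e : B → Fin K)
    (he : Function.Injective e) (g : Fin d → Equiv.Perm (Fin n)) (x0 : Fin n × Fin (2 * h) → B)
    {T i a : ℕ} (hT : 2 * T ≤ Fintype.card B) (u : Fin a → Fin n) (hu : StrictMono u)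
    (r : Fin a → Fin d × Fin (2 * h)) (s t : Fin S) (I : B → Fin d × Fin (2 * h) → B) (hI : CF (fine g) x0 i I) :
    Nat.card {y : Fin a → Fin (2 * h) → B // InX P e g x0 T i u r s t (I + chg g x0 i u r y I)} ≤
      ((4 * (T * (Fintype.card B - T))) ^ h) ^ a := sorry

/-- W4a (helper66): the number of instances of one type. -/
theorem type_bound [Fintype B] (P : NProg B (Fin d × Fin (2 * h) → B) B S) (e : B → Fin K)
    (he : Function.Injective e) (g : Fin d → Equiv.Perm (Fin n)) (x0 : Fin n × Fin (2 * h) → B)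
    {T i a : ℕ} (hT : 2 * T ≤ Fintype.card B) (u : Fin a → Fin n) (hu : StrictMono u)
    (r : Fin a → Fin d × Fin (2 * h)) (s t : Fin S) :
    Nat.card {I : B → Fin d × Fin (2 * h) → B // InX P e g x0 T i u r s t I} * (Fintype.card B ^ (2 * h)) ^ a ≤
      ((4 * (T * (Fintype.card B - T))) ^ h) ^ a * Nat.card (B → Fin d × Fin (2 * h) → B) := sorry

/-- W4b (helper66): all types. -/
theorem good_bound [Fintype B] (P : NProg B (Fin d × Fin (2 * h) → B) B S) (e : B → Fin K)
    (he : Function.Injective e) (g : Fin d → Equiv.Perm (Fin n)) (x0 : Fin n × Fin (2 * h) → B)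
    {R T a : ℕ} (hT : 2 * T ≤ Fintype.card B) (ha : 1 ≤ a) (hE : Expands g a) :
    Nat.card {I : B → Fin d × Fin (2 * h) → B // CF (fine g) x0 R I ∧ ∃ l t, Best P e I P.start l t ∧
        Nat.card {c // c ∈ l} ≤ T ∧ 2 * a ≤ (outs g x0 I R l).card ∧ l.length ≤ 2 ^ R} *
          (Fintype.card B ^ (2 * h)) ^ a ≤
      R * n.choose a * (d * (2 * h)) ^ a * S ^ 2 * ((4 * (T * (Fintype.card B - T))) ^ h) ^ a *
        Nat.card (B → Fin d × Fin (2 * h) → B) := sorry

/-- W5a (helper78): the instances with right results for which many cells of the last row are not read. The letters of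
the last row which are not read are more than 3/8 of all. -/
theorem root_bound [Fintype B] (P : NProg B (Fin d × Fin (2 * h) → B) B S)
    (g : Fin d → Equiv.Perm (Fin n)) (x0 : Fin n × Fin (2 * h) → B) {R a p : ℕ} (c : Fin d × Fin (2 * h))
    (hn : 8 * a ≤ n) (hn1 : 1 ≤ n) (φ : B → B) (hφ : ∀ y, Nat.card {x // φ x = y} ≤ p) :
    Nat.card {I : B → Fin d × Fin (2 * h) → B // CF (fine g) x0 R I ∧
        (∀ l z, P.Ends I l z → z = φ (res (fine g) x0 R c I)) ∧
        ∃ l z, P.Ends I l z ∧ (outs g x0 I R l).card < 2 * a} * Fintype.card B ≤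
      3 * p * Nat.card (B → Fin d × Fin (2 * h) → B) := sorry

/-- W5b (helper78): decision version. -/
theorem root_bound' [Fintype B] (P : NProg B (Fin d × Fin (2 * h) → B) B S)
    (g : Fin d → Equiv.Perm (Fin n)) (x0 : Fin n × Fin (2 * h) → B) {R a : ℕ} (c : Fin d × Fin (2 * h))
    (hn : 8 * a ≤ n) (hn1 : 1 ≤ n) (Y : Finset B) :
    Nat.card {I : B → Fin d × Fin (2 * h) → B // CF (fine g) x0 R I ∧ res (fine g) x0 R c I ∈ Y ∧
        ∃ l z, P.Ends I l z ∧ (outs g x0 I R l).card < 2 * a} * (Fintype.card B - Y.card) ≤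
      3 * Y.card * Nat.card {I : B → Fin d × Fin (2 * h) → B // res (fine g) x0 R c I ∉ Y ∧ ∃ l z, P.Ends I l z} := sorry

/-- W8 (helper74): the main inequality. -/
theorem main_bound [Fintype B] (P : NProg B (Fin d × Fin (2 * h) → B) B S)
    (g : Fin d → Equiv.Perm (Fin n)) (x0 : Fin n × Fin (2 * h) → B) (h0 : Function.Injective x0) {R T a p : ℕ}
    (hT : 2 * T ≤ Fintype.card B) (c : Fin d × Fin (2 * h)) (ha : 1 ≤ a) (hn : 8 * a ≤ n) (hE : Expands g a)
    (φ : B → B) (hφ : ∀ y, Nat.card {x // φ x = y} ≤ p) (τ : ℝ) (hτ : τ = T / Fintype.card B) :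
    (Nat.card {I : B → Fin d × Fin (2 * h) → B // (∃ l z, P.Ends I l z) ∧
        (∀ l z, P.Ends I l z → z = φ (res (fine g) x0 R c I)) ∧
        ∀ l z, P.Shortest I l z → Nat.card {b // b ∈ l} ≤ T ∧ min S l.length ≤ 2 ^ R} : ℝ) ≤
      ((3 * p + ((R + 1) * (n * (2 * h))) ^ 2) / Fintype.card B +
        R * n.choose a * (S : ℝ) ^ 2 * (d * (2 * h) * (4 * τ * (1 - τ)) ^ h) ^ a) *
          Nat.card (B → Fin d × Fin (2 * h) → B) := sorry

/-- W8b (helper78): the decision version. -/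
theorem decision_bound [Fintype B] (P : NProg B (Fin d × Fin (2 * h) → B) B S)
    (g : Fin d → Equiv.Perm (Fin n)) (x0 : Fin n × Fin (2 * h) → B) (h0 : Function.Injective x0) {R T a : ℕ}
    (hT : 2 * T ≤ Fintype.card B) (c : Fin d × Fin (2 * h)) (ha : 1 ≤ a) (hn : 8 * a ≤ n) (hE : Expands g a)
    (Y : Finset B) (y τ : ℝ) (hy : y = Y.card / Fintype.card B) (hτ : τ = T / Fintype.card B) :
    (min y ((1 - y) / 3) - ((R + 1) * (n * (2 * h))) ^ 2 / Fintype.card B -
        R * n.choose a * (S : ℝ) ^ 2 * (d * (2 * h) * (4 * τ * (1 - τ)) ^ h) ^ a) *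
          Nat.card (B → Fin d × Fin (2 * h) → B) ≤
      Nat.card {I : B → Fin d × Fin (2 * h) → B // ¬ (((∃ l z, P.Ends I l z) ↔ res (fine g) x0 R c I ∈ Y) ∧
        ∀ l z, P.Shortest I l z → Nat.card {b // b ∈ l} ≤ T ∧ min S l.length ≤ 2 ^ R)} := sorry

/-- WP (helper78): both for nondeterministic pushdown programs with `q` states which end within `2 ^ m` steps. -/
theorem push_main_bound {Q Γ : Type} [Fintype Q] [Fintype B] (P : NPProg B (Fin d × Fin (2 * h) → B) B Q Γ)
    (g : Fin d → Equiv.Perm (Fin n)) (x0 : Fin n × Fin (2 * h) → B) (h0 : Function.Injective x0) {R T a p m : ℕ}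
    (hT : 2 * (T + 1) ≤ Fintype.card B) (hm : m < R) (c : Fin d × Fin (2 * h)) (ha : 1 ≤ a) (hn : 8 * a ≤ n)
    (hE : Expands g a) (φ : B → B) (hφ : ∀ y, Nat.card {x // φ x = y} ≤ p) (τ : ℝ)
    (hτ : τ = (T + 1) / Fintype.card B) :
    (Nat.card {I : B → Fin d × Fin (2 * h) → B // (∃ l k z, P.Ends I l k z ∧ k ≤ 2 ^ m) ∧
        ∀ l k z, P.Ends I l k z → z = φ (res (fine g) x0 R c I) ∧ Nat.card {b // b ∈ l} ≤ T} : ℝ) ≤
      ((3 * p + ((R + 1) * (n * (2 * h))) ^ 2) / Fintype.card B +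
        R * n.choose a * ((2 * (Fintype.card Q : ℝ) ^ 2 + 2) ^ (m + 2)) ^ 2 *
          (d * (2 * h) * (4 * τ * (1 - τ)) ^ h) ^ a) * Nat.card (B → Fin d × Fin (2 * h) → B) := sorry

theorem push_decision_bound {Q Γ : Type} [Fintype Q] [Fintype B] (P : NPProg B (Fin d × Fin (2 * h) → B) B Q Γ)
    (g : Fin d → Equiv.Perm (Fin n)) (x0 : Fin n × Fin (2 * h) → B) (h0 : Function.Injective x0) {R T a m : ℕ}
    (hT : 2 * (T + 1) ≤ Fintype.card B) (hm : m < R) (c : Fin d × Fin (2 * h)) (ha : 1 ≤ a) (hn : 8 * a ≤ n)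
    (hE : Expands g a) (Y : Finset B) (y τ : ℝ) (hy : y = Y.card / Fintype.card B)
    (hτ : τ = (T + 1) / Fintype.card B) :
    (min y ((1 - y) / 3) - ((R + 1) * (n * (2 * h))) ^ 2 / Fintype.card B -
        R * n.choose a * ((2 * (Fintype.card Q : ℝ) ^ 2 + 2) ^ (m + 2)) ^ 2 *
          (d * (2 * h) * (4 * τ * (1 - τ)) ^ h) ^ a) * Nat.card (B → Fin d × Fin (2 * h) → B) ≤
      Nat.card {I : B → Fin d × Fin (2 * h) → B //
        ¬ ((res (fine g) x0 R c I ∈ Y → ∃ l k z, P.Ends I l k z ∧ k ≤ 2 ^ m) ∧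
          ∀ l k z, P.Ends I l k z → res (fine g) x0 R c I ∈ Y ∧ Nat.card {b // b ∈ l} ≤ T)} := sorry

end Pool.Agent.Helper74.NW.Frame
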