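import Pool.Agent.Helper74.NW.Win

/-!
# A class is small
-/

namespace Pool.Agent.Helper74.NW

open Pool.Agent.Helper19.NF

/-! ## Words with many letters in a set -/

theorem pow_mul_pow_le {z w h q : ℕ} (hzw : z ≤ w) (hq : h ≤ q) (hq2 : q ≤ 2 * h) :
    z ^ q * w ^ (2 * h - q) ≤ (z * w) ^ h := by
  obtain ⟨p, rfl⟩ : ∃ p, q = h + p := ⟨q - h, by omega⟩
  have h1 : 2 * h - (h + p) = h - p := by omega
  rw [h1, pow_add, mul_pow]
  have h2 : z ^ p ≤ w ^ p := Nat.pow_le_pow_left hzw p
  calc z ^ h * z ^ p * w ^ (h - p) ≤ z ^ h * w ^ p * w ^ (h - p) := by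
        exact Nat.mul_le_mul_right _ (Nat.mul_le_mul_left _ h2)
    _ = z ^ h * w ^ h := by
        rw [mul_assoc, ← pow_add]
        congr 2
        omega

theorem card_words {B : Type} [Fintype B] [AddCommGroup B] [DecidableEq B] {h : ℕ} (b : Fin (2 * h) → B)
    (Z : Finset B) (hZ : 2 * Z.card ≤ Fintype.card B) :
    (Finset.univ.filter (fun y : Fin (2 * h) → B =>
      h ≤ (Finset.univ.filter (fun t => b t + y t ∈ Z)).card)).card ≤
      (4 * (Z.card * (Fintype.card B - Z.card))) ^ h := by
  classical
  set X := Finset.univ.filter (fun y : Fin (2 * h) → B =>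
      h ≤ (Finset.univ.filter (fun t => b t + y t ∈ Z)).card) with hX
  have hin : ∀ t, (Finset.univ.filter (fun x => b t + x ∈ Z)).card = Z.card := by
    intro t
    refine Finset.card_nbij' (fun x => b t + x) (fun z => -b t + z) ?_ ?_ ?_ ?_
    · intro x hx
      exact (Finset.mem_filter.mp hx).2
    · intro z hz
      refine Finset.mem_filter.mpr ⟨Finset.mem_univ _, ?_⟩
      rw [add_neg_cancel_left]
      exact hz
    · intro x _
      exact neg_add_cancel_left _ _
    · intro z _
      exact add_neg_cancel_left _ _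
  have hout : ∀ t, (Finset.univ.filter (fun x => b t + x ∉ Z)).card = Fintype.card B - Z.card := by
    intro t
    have h1 := Finset.card_filter_add_card_filter_not (s := (Finset.univ : Finset B)) (fun x => b t + x ∈ Z)
    rw [hin t, Finset.card_univ] at h1
    omega
  have h1 : X.card ≤ (Z.card * (Fintype.card B - Z.card)) ^ h *
      (Finset.univ : Finset (Finset (Fin (2 * h)))).card := by
    refine Finset.card_le_mul_card_image_of_maps_to
      (f := fun y => Finset.univ.filter (fun t => b t + y t ∈ Z)) (fun _ _ => Finset.mem_univ _) _ fun Q _ => ?_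
    by_cases hQ : h ≤ Q.card
    · have h2 : X.filter (fun y => Finset.univ.filter (fun t => b t + y t ∈ Z) = Q) ⊆
          Fintype.piFinset (fun t => if t ∈ Q then Finset.univ.filter (fun x => b t + x ∈ Z)
            else Finset.univ.filter (fun x => b t + x ∉ Z)) := by
        intro y hy
        have h3 := (Finset.mem_filter.mp hy).2
        rw [Fintype.mem_piFinset]
        intro t
        by_cases ht : t ∈ Q
        · rw [if_pos ht, Finset.mem_filter]
          rw [← h3, Finset.mem_filter] at ht
          exact ⟨Finset.mem_univ _, ht.2⟩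
        · rw [if_neg ht, Finset.mem_filter]
          rw [← h3, Finset.mem_filter] at ht
          exact ⟨Finset.mem_univ _, fun h4 => ht ⟨Finset.mem_univ _, h4⟩⟩
      refine (Finset.card_le_card h2).trans ?_
      rw [Fintype.card_piFinset]
      have h3 : ∏ t, (if t ∈ Q then Finset.univ.filter (fun x => b t + x ∈ Z)
            else Finset.univ.filter (fun x => b t + x ∉ Z)).card =
          Z.card ^ Q.card * (Fintype.card B - Z.card) ^ (2 * h - Q.card) := by
        have h4 : ∀ t, (if t ∈ Q then Finset.univ.filter (fun x => b t + x ∈ Z)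
            else Finset.univ.filter (fun x => b t + x ∉ Z)).card =
            if t ∈ Q then Z.card else Fintype.card B - Z.card := by
          intro t
          by_cases ht : t ∈ Q
          · rw [if_pos ht, if_pos ht, hin]
          · rw [if_neg ht, if_neg ht, hout]
        rw [Finset.prod_congr rfl fun t _ => h4 t, Finset.prod_ite, Finset.prod_const, Finset.prod_const]
        congr 2
        · rw [Finset.filter_mem_eq_inter, Finset.univ_inter]
        · have h5 := Finset.card_filter_add_card_filter_not (s := (Finset.univ : Finset (Fin (2 * h))))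
            (fun t => t ∈ Q)
          rw [Finset.filter_mem_eq_inter, Finset.univ_inter, Finset.card_univ, Fintype.card_fin] at h5
          omega
      rw [h3]
      refine pow_mul_pow_le (by omega) hQ ?_
      calc Q.card ≤ Fintype.card (Fin (2 * h)) := Finset.card_le_univ Q
        _ = 2 * h := Fintype.card_fin _
    · have h2 : X.filter (fun y => Finset.univ.filter (fun t => b t + y t ∈ Z) = Q) = ∅ := by
        refine Finset.filter_eq_empty_iff.mpr fun y hy h3 => hQ ?_
        rw [← h3]
        exact (Finset.mem_filter.mp hy).2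
      rw [h2]
      simp
  refine h1.trans (le_of_eq ?_)
  rw [Finset.card_univ, Fintype.card_finset, Fintype.card_fin, mul_pow, pow_mul]
  norm_num
  ring

theorem mul_sub_mono {z T k : ℕ} (hz : z ≤ T) (hT : 2 * T ≤ k) : z * (k - z) ≤ T * (k - T) := by
  obtain ⟨p, rfl⟩ : ∃ p, T = z + p := ⟨T - z, by omega⟩
  obtain ⟨q, rfl⟩ : ∃ q, k = 2 * (z + p) + q := ⟨k - 2 * (z + p), by omega⟩
  have h1 : 2 * (z + p) + q - z = z + 2 * p + q := by omega
  have h2 : 2 * (z + p) + q - (z + p) = z + p + q := by omega
  rw [h1, h2]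
  nlinarith [Nat.zero_le (p * p), Nat.zero_le (p * q)]

/-! ## The change of the holes -/

variable {n d h : ℕ} {B : Type} [AddCommGroup B] [NeZero (2 * h)] {S K : ℕ}
variable {g : Fin d → Equiv.Perm (Fin n)} {x0 : Fin n × Fin (2 * h) → B} {i a : ℕ} {u : Fin a → Fin n}
variable {r : Fin a → Fin d × Fin (2 * h)}

theorem chg_of_not {y : Fin a → Fin (2 * h) → B} {I : B → Fin d × Fin (2 * h) → B} {b : B}
    (hb : ∀ j, b ≠ hole g x0 i u r I j) : chg g x0 i u r y I b = 0 := by
  funext c
  unfold chg
  exact Finset.sum_eq_zero fun j _ => Finset.sum_eq_zero fun t _ => if_neg fun h1 => hb j h1.1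

theorem chg_ne {y : Fin a → Fin (2 * h) → B} {I : B → Fin d × Fin (2 * h) → B} (b : B)
    (hb : chg g x0 i u r y I b ≠ 0) : ∃ v, b = val (fine g) x0 I i v := by
  by_contra hc
  exact hb (chg_of_not fun j hj => hc ⟨_, hj⟩)

/-- The letters of the row `i + 1` after the change. -/
theorem val_chg {I : B → Fin d × Fin (2 * h) → B} (hI : CF (fine g) x0 i I) (y : Fin a → Fin (2 * h) → B)
    (v : Fin n) (t : Fin (2 * h)) :
    val (fine g) x0 (I + chg g x0 i u r y I) (i + 1) (v, t) =
      val (fine g) x0 I (i + 1) (v, t) + ∑ j, if u j = v then y j t else 0 := by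
  classical
  rw [val_add_succ hI _ chg_ne]
  congr 1
  unfold chg
  rw [Finset.sum_comm]
  refine Finset.sum_congr rfl fun j _ => ?_
  have h1 : ∀ (c : Fin d × Fin (2 * h)) (t' : Fin (2 * h)),
      (val (fine g) x0 I i (fine g c (v, t)) = hole g x0 i u r I j ∧ c = ((r j).1, (r j).2 - t')) ↔
        (c = ((r j).1, (r j).2 - t) ∧ t' = t ∧ u j = v) := by
    intro c t'
    unfold hole
    constructor
    · rintro ⟨h2, rfl⟩
      have h3 := (hI i i _ _ le_rfl le_rfl h2).2
      rw [fine_apply, Prod.mk.injEq] at h3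
      obtain ⟨h4, h5⟩ := h3
      have h6 : v = u j := (g (r j).1).injective h4
      have h7 : t' = t := by
        have h8 : t + ((r j).2 - t') = (r j).2 := h5
        have h9 : t - t' = 0 := by
          have h10 : t + ((r j).2 - t') = (r j).2 + (t - t') := by abel
          rw [h10] at h8
          exact left_eq_add.mp h8.symm
        exact (sub_eq_zero.mp h9).symm
      exact ⟨by rw [h7], h7, h6.symm⟩
    · rintro ⟨rfl, rfl, rfl⟩
      refine ⟨?_, rfl⟩
      rw [fine_apply]
      congr 2
      show t' + ((r j).2 - t') = (r j).2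
      abel
  have h2 : ∀ (c : Fin d × Fin (2 * h)) (t' : Fin (2 * h)),
      (if val (fine g) x0 I i (fine g c (v, t)) = hole g x0 i u r I j ∧ c = ((r j).1, (r j).2 - t') then y j t'
        else 0) = if c = ((r j).1, (r j).2 - t) then (if t' = t then (if u j = v then y j t else 0) else 0) else 0 := by
    intro c t'
    by_cases h3 : c = ((r j).1, (r j).2 - t)
    · by_cases h4 : t' = t
      · by_cases h5 : u j = v
        · rw [if_pos ((h1 c t').mpr ⟨h3, h4, h5⟩), if_pos h3, if_pos h4, if_pos h5, h4]
        · rw [if_neg fun h6 => h5 ((h1 c t').mp h6).2.2, if_pos h3, if_pos h4, if_neg h5]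
      · rw [if_neg fun h6 => h4 ((h1 c t').mp h6).2.1, if_pos h3, if_neg h4]
    · rw [if_neg fun h6 => h3 ((h1 c t').mp h6).1, if_neg h3]
  simp only [h2]
  rw [Finset.sum_eq_single ((r j).1, (r j).2 - t)]
  · simp
  · intro c _ hc
    exact Finset.sum_eq_zero fun t' _ => if_neg hc
  · intro h3
    exact (h3 (Finset.mem_univ _)).elim

theorem val_chg_le {I : B → Fin d × Fin (2 * h) → B} (hI : CF (fine g) x0 i I) (y : Fin a → Fin (2 * h) → B)
    {j : ℕ} (hj : j ≤ i) (v : Fin n × Fin (2 * h)) :
    val (fine g) x0 (I + chg g x0 i u r y I) j v = val (fine g) x0 I j v :=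
  val_add hI _ chg_ne j hj v

theorem hole_chg {I : B → Fin d × Fin (2 * h) → B} (hI : CF (fine g) x0 i I) (y : Fin a → Fin (2 * h) → B)
    (j : Fin a) : hole g x0 i u r (I + chg g x0 i u r y I) j = hole g x0 i u r I j := by
  unfold hole
  rw [val_chg_le hI y le_rfl]

/-- W3: a class is small. -/
theorem class_bound [Fintype B] (P : NProg B (Fin d × Fin (2 * h) → B) B S) (e : B → Fin K)
    (he : Function.Injective e) (g : Fin d → Equiv.Perm (Fin n)) (x0 : Fin n × Fin (2 * h) → B)
    {T i a : ℕ} (hT : 2 * T ≤ Fintype.card B) (u : Fin a → Fin n) (hu : StrictMono u)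
    (r : Fin a → Fin d × Fin (2 * h)) (s t : Fin S) (I : B → Fin d × Fin (2 * h) → B) (hI : CF (fine g) x0 i I) :
    Nat.card {y : Fin a → Fin (2 * h) → B // InX P e g x0 T i u r s t (I + chg g x0 i u r y I)} ≤
      ((4 * (T * (Fintype.card B - T))) ^ h) ^ a := by
  classical
  rw [Nat.card_eq_fintype_card, Fintype.card_subtype]
  set X := Finset.univ.filter
    (fun y : Fin a → Fin (2 * h) → B => InX P e g x0 T i u r s t (I + chg g x0 i u r y I)) with hX
  rcases X.eq_empty_or_nonempty with h0 | ⟨z, hz⟩
  · rw [h0]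
    simp
  -- the windows
  have hw : ∀ y ∈ X, ∃ w : List B, Best P e (I + chg g x0 i u r y I) s w t ∧ Nat.card {c // c ∈ w} ≤ T ∧
      ∀ j, h ≤ (Finset.univ.filter (fun t => val (fine g) x0 I (i + 1) (u j, t) + y j t ∈ w)).card ∧
        hole g x0 i u r I j ∉ w := by
    intro y hy
    obtain ⟨_, w, h1, h2, h3⟩ := (Finset.mem_filter.mp hy).2
    refine ⟨w, h1, h2, fun j => ?_⟩
    have h4 : ∀ t, val (fine g) x0 (I + chg g x0 i u r y I) (i + 1) (u j, t) =
        val (fine g) x0 I (i + 1) (u j, t) + y j t := by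
      intro t
      rw [val_chg hI, Finset.sum_eq_single j]
      · rw [if_pos rfl]
      · intro j' _ hj'
        rw [if_neg fun h5 => hj' (hu.injective h5)]
      · intro h5
        exact (h5 (Finset.mem_univ _)).elim
    have h5 := h3 j
    simp only [h4, hole_chg hI] at h5
    exact h5
  choose! W hW using hw
  -- the windows are valid for all elements of the class
  have hval : ∀ y y', y ∈ X → P.Run (I + chg g x0 i u r y' I) s (W y) t := by
    intro y y' hy
    refine run_congr (hW y hy).1.run fun c hc => ?_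
    have h1 : ∀ j, c ≠ hole g x0 i u r I j := fun j h => ((hW y hy).2.2 j).2 (h ▸ hc)
    rw [Pi.add_apply, Pi.add_apply, chg_of_not h1, chg_of_not h1]
  -- so they are equal
  have heq : ∀ y ∈ X, W y = W z := fun y hy =>
    Best.unique he (hW y hy).1 (hW z hz).1 (hval z y hz) (hval y z hy)
  have hZ : (W z).toFinset.card ≤ T := by
    have h2 := (hW z hz).2.1
    rw [Nat.card_eq_fintype_card, Fintype.card_of_subtype (W z).toFinset (fun c => List.mem_toFinset)] at h2
    exact h2
  have hsub : X ⊆ Fintype.piFinset (fun j => Finset.univ.filter (fun x : Fin (2 * h) → B =>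
      h ≤ (Finset.univ.filter (fun t => val (fine g) x0 I (i + 1) (u j, t) + x t ∈ (W z).toFinset)).card)) := by
    intro y hy
    rw [Fintype.mem_piFinset]
    intro j
    rw [Finset.mem_filter]
    refine ⟨Finset.mem_univ _, ?_⟩
    have h1 := ((hW y hy).2.2 j).1
    rw [heq y hy] at h1
    simp only [List.mem_toFinset]
    exact h1
  refine (Finset.card_le_card hsub).trans ?_
  rw [Fintype.card_piFinset]
  have h1 : ∀ j : Fin a, (Finset.univ.filter (fun x : Fin (2 * h) → B =>
      h ≤ (Finset.univ.filter (fun t => val (fine g) x0 I (i + 1) (u j, t) + x t ∈ (W z).toFinset)).card)).card ≤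
      (4 * (T * (Fintype.card B - T))) ^ h := by
    intro j
    refine (card_words _ _ (by omega)).trans ?_
    exact Nat.pow_le_pow_left (Nat.mul_le_mul_left _ (mul_sub_mono hZ hT)) _
  calc _ ≤ ∏ _j : Fin a, (4 * (T * (Fintype.card B - T))) ^ h := Finset.prod_le_prod' fun j _ => h1 j
    _ = ((4 * (T * (Fintype.card B - T))) ^ h) ^ a := by
      rw [Finset.prod_const, Finset.card_univ, Fintype.card_fin]

end Pool.Agent.Helper74.NW
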