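import Pool.Agent.Helper74.NW.Main
import Pool.Agent.Helper92.NS.Perms

/-!
# The theorem with numbers
-/

namespace Pool.Agent.Helper74.NW

open Pool.Agent.Helper19.NF

/-- The last term with the numbers. -/
theorem term_le {a h : ℕ} (hC : (8 * a).choose a ≤ 21 ^ a) (R : ℕ) {s τ : ℝ} (hs : 0 ≤ s) (h0 : 0 ≤ τ)
    (h1 : τ ≤ 1) :
    (R : ℝ) * (8 * a).choose a * s ^ 2 * ((13 : ℕ) * (2 * h) * (4 * τ * (1 - τ)) ^ h) ^ a ≤
      R * s ^ 2 * (546 * h * (4 * τ * (1 - τ)) ^ h) ^ a := by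
  have h2 : ((8 * a).choose a : ℝ) ≤ 21 ^ a := by exact_mod_cast hC
  have h3 : (546 * (h : ℝ) * (4 * τ * (1 - τ)) ^ h) ^ a =
      21 ^ a * ((13 : ℕ) * (2 * h) * (4 * τ * (1 - τ)) ^ h) ^ a := by
    rw [← mul_pow]
    congr 1
    push_cast
    ring
  have h4 : 0 ≤ 4 * τ * (1 - τ) := mul_nonneg (by linarith) (by linarith)
  have h5 : (0 : ℝ) ≤ R * s ^ 2 * ((13 : ℕ) * (2 * h) * (4 * τ * (1 - τ)) ^ h) ^ a := by positivity
  calc (R : ℝ) * (8 * a).choose a * s ^ 2 * ((13 : ℕ) * (2 * h) * (4 * τ * (1 - τ)) ^ h) ^ a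
      = (8 * a).choose a * (R * s ^ 2 * ((13 : ℕ) * (2 * h) * (4 * τ * (1 - τ)) ^ h) ^ a) := by ring
    _ ≤ 21 ^ a * (R * s ^ 2 * ((13 : ℕ) * (2 * h) * (4 * τ * (1 - τ)) ^ h) ^ a) := mul_le_mul_of_nonneg_right h2 h5
    _ = R * s ^ 2 * (546 * h * (4 * τ * (1 - τ)) ^ h) ^ a := by rw [h3]; ring

theorem nw_main (a h : ℕ) (ha : 1 ≤ a) (hh : 1 ≤ h) :
    ∃ g : Fin 13 × Fin (2 * h) → Equiv.Perm (Fin (8 * a) × Fin (2 * h)),
      ∀ (B : Type) [AddCommGroup B] [Finite B] (x0 : Fin (8 * a) × Fin (2 * h) → B), Function.Injective x0 →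
      ∀ (R k V : ℕ) (c : Fin 13 × Fin (2 * h)), k = Nat.card B → V = (R + 1) * (8 * a * (2 * h)) → V ≤ k →
      (∀ (S T p : ℕ) (φ : B → B) (P : NProg B (Fin 13 × Fin (2 * h) → B) B S) (τ : ℝ),
        (∀ y, Nat.card {x // φ x = y} ≤ p) → 2 * T ≤ k → τ = T / k →
        (Nat.card {I : B → Fin 13 × Fin (2 * h) → B // (∃ l z, P.Ends I l z) ∧
          (∀ l z, P.Ends I l z → z = φ (res g x0 R c I)) ∧
          ∀ l z, P.Shortest I l z → Nat.card {b // b ∈ l} ≤ T ∧ min S l.length ≤ 2 ^ R} : ℝ) ≤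
          ((3 * p + V ^ 2) / k + R * S ^ 2 * (546 * h * (4 * τ * (1 - τ)) ^ h) ^ a) *
            Nat.card (B → Fin 13 × Fin (2 * h) → B)) ∧
      (∀ (S T : ℕ) (Y : Set B) (P : NProg B (Fin 13 × Fin (2 * h) → B) B S) (y τ : ℝ),
        y = Nat.card Y / k → 2 * T ≤ k → τ = T / k →
        (min y ((1 - y) / 3) - V ^ 2 / k - R * S ^ 2 * (546 * h * (4 * τ * (1 - τ)) ^ h) ^ a) *
            Nat.card (B → Fin 13 × Fin (2 * h) → B) ≤
          Nat.card {I : B → Fin 13 × Fin (2 * h) → B // ¬ (((∃ l z, P.Ends I l z) ↔ res g x0 R c I ∈ Y) ∧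
            ∀ l z, P.Shortest I l z → Nat.card {b // b ∈ l} ≤ T ∧ min S l.length ≤ 2 ^ R)}) ∧
      (∀ (q m T p : ℕ) (Q Γ : Type) (_ : Finite Q) (φ : B → B) (P : NPProg B (Fin 13 × Fin (2 * h) → B) B Q Γ)
        (τ : ℝ), q = Nat.card Q → m < R → (∀ y, Nat.card {x // φ x = y} ≤ p) → 2 * (T + 1) ≤ k →
        τ = (T + 1) / k →
        (Nat.card {I : B → Fin 13 × Fin (2 * h) → B // (∃ l n z, P.Ends I l n z ∧ n ≤ 2 ^ m) ∧
          ∀ l n z, P.Ends I l n z → z = φ (res g x0 R c I) ∧ Nat.card {b // b ∈ l} ≤ T} : ℝ) ≤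
          ((3 * p + V ^ 2) / k + R * ((2 * q ^ 2 + 2) ^ (m + 2)) ^ 2 * (546 * h * (4 * τ * (1 - τ)) ^ h) ^ a) *
            Nat.card (B → Fin 13 × Fin (2 * h) → B)) ∧
      (∀ (q m T : ℕ) (Q Γ : Type) (_ : Finite Q) (Y : Set B) (P : NPProg B (Fin 13 × Fin (2 * h) → B) B Q Γ)
        (y τ : ℝ), q = Nat.card Q → m < R → y = Nat.card Y / k → 2 * (T + 1) ≤ k → τ = (T + 1) / k →
        (min y ((1 - y) / 3) - V ^ 2 / k -
            R * ((2 * q ^ 2 + 2) ^ (m + 2)) ^ 2 * (546 * h * (4 * τ * (1 - τ)) ^ h) ^ a) *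
            Nat.card (B → Fin 13 × Fin (2 * h) → B) ≤
          Nat.card {I : B → Fin 13 × Fin (2 * h) → B //
            ¬ ((res g x0 R c I ∈ Y → ∃ l n z, P.Ends I l n z ∧ n ≤ 2 ^ m) ∧
              ∀ l n z, P.Ends I l n z → res g x0 R c I ∈ Y ∧ Nat.card {b // b ∈ l} ≤ T)}) ∧
      (∃ S ≤ (V + 1) * k ^ (16 * a * h * 2), ∃ P : NProg B (Fin 13 × Fin (2 * h) → B) B S,
        (∀ s b next, P.act s = Sum.inl (b, next) → ∀ w, ∃ t, next w = {t}) ∧
        ∀ I, ∃ l, P.Ends I l (res g x0 R c I) ∧ (∀ l' z, P.Ends I l' z → l' = l ∧ z = res g x0 R c I) ∧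
          Nat.card {b // b ∈ l} ≤ V) ∧
      (∃ (Q Γ : Type) (_ : Finite Q) (_ : Finite Γ) (P : PProg B (Fin 13 × Fin (2 * h) → B) B Q Γ),
        Nat.card Q ≤ (26 * h * k) ^ 4 ∧ Nat.card Γ ≤ (26 * h * k) ^ 2 ∧
        ∀ I, P.Outputs I (res g x0 R c I) ∧ Nat.card {b // P.Asks I b} ≤ V) := by
  classical
  obtain ⟨g, hg⟩ := Pool.Agent.Helper92.NS.exists_perms a ha
  have hC := Pool.Agent.Helper92.NS.choose_le a
  haveI : NeZero (2 * h) := ⟨by omega⟩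
  refine ⟨fine g, fun B _ _ x0 h0 R k V c hk hV hVk => ?_⟩
  have := Fintype.ofFinite B
  haveI : Nonempty (Fin 13 × Fin (2 * h)) := ⟨c⟩
  haveI : NeZero (8 * a) := ⟨by omega⟩
  haveI : Nonempty (Fin (8 * a) × Fin (2 * h)) := ⟨(0, 0)⟩
  have hk2 : k = Fintype.card B := by rw [hk, Nat.card_eq_fintype_card]
  have hk0 : 0 < k := by rw [hk2]; exact Fintype.card_pos_iff.mpr ⟨0⟩
  have hk0' : (0 : ℝ) < k := by exact_mod_cast hk0
  have hV' : (V : ℝ) = (R + 1) * ((8 * a : ℕ) * (2 * h)) := by rw [hV]; push_cast; ring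
  have hVpos : 16 ≤ V := by
    rw [hV]
    have h1 : 1 ≤ a * h := Nat.mul_pos ha hh
    nlinarith
  have hcU : Fintype.card (Fin (8 * a) × Fin (2 * h)) = 8 * a * (2 * h) := by
    rw [Fintype.card_prod, Fintype.card_fin, Fintype.card_fin]
  have hcD : Fintype.card (Fin 13 × Fin (2 * h)) = 26 * h := by
    rw [Fintype.card_prod, Fintype.card_fin, Fintype.card_fin]
    ring
  have hτ1 : ∀ T : ℕ, 2 * T ≤ k → (0 : ℝ) ≤ T / k ∧ (T : ℝ) / k ≤ 1 := by
    intro T hT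
    refine ⟨by positivity, (div_le_one hk0').mpr ?_⟩
    exact_mod_cast (by omega : T ≤ k)
  refine ⟨?_, ?_, ?_, ?_, ?_, ?_⟩
  · intro S T p φ P τ hφ hT hτ
    obtain ⟨h1, h2⟩ := hτ1 T hT
    rw [← hτ] at h1 h2
    refine (main_bound P g x0 h0 (R := R) (T := T) (by omega) c ha le_rfl hg φ hφ τ (by rw [hτ, hk2])).trans ?_
    refine mul_le_mul_of_nonneg_right ?_ (Nat.cast_nonneg _)
    rw [← hk2, hV']
    exact add_le_add le_rfl (term_le hC R (Nat.cast_nonneg S) h1 h2)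
  · intro S T Y P y τ hy hT hτ
    obtain ⟨h1, h2⟩ := hτ1 T hT
    rw [← hτ] at h1 h2
    have h3 := Frame.decision_bound P g x0 h0 (R := R) (T := T) (by omega) c ha le_rfl hg
      (Finset.univ.filter (fun b => b ∈ Y)) y τ (by
        rw [hy, hk2]
        congr 2
        rw [Nat.card_eq_fintype_card]
        exact Fintype.card_of_subtype _ (fun b => by simp)) (by rw [hτ, hk2])
    simp only [Finset.mem_filter, Finset.mem_univ, true_and] at h3
    refine le_trans ?_ h3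
    refine mul_le_mul_of_nonneg_right ?_ (Nat.cast_nonneg _)
    rw [← hk2, hV']
    exact sub_le_sub_left (term_le (h := h) hC R (Nat.cast_nonneg S) h1 h2) _
  · intro q m T p Q Γ _ φ P τ hq hm hφ hT hτ
    have := Fintype.ofFinite Q
    obtain ⟨h1, h2⟩ := hτ1 (T + 1) hT
    push_cast at h1 h2
    rw [← hτ] at h1 h2
    refine (Frame.push_main_bound P g x0 h0 (R := R) (T := T) (by omega) hm c ha le_rfl hg φ hφ τ
      (by rw [hτ, hk2])).trans ?_
    refine mul_le_mul_of_nonneg_right ?_ (Nat.cast_nonneg _)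
    rw [← hk2, hV', hq, Nat.card_eq_fintype_card]
    exact add_le_add le_rfl (term_le hC R (by positivity) h1 h2)
  · intro q m T Q Γ _ Y P y τ hq hm hy hT hτ
    have := Fintype.ofFinite Q
    obtain ⟨h1, h2⟩ := hτ1 (T + 1) hT
    push_cast at h1 h2
    rw [← hτ] at h1 h2
    have h3 := Frame.push_decision_bound P g x0 h0 (R := R) (T := T) (by omega) hm c ha le_rfl hg
      (Finset.univ.filter (fun b => b ∈ Y)) y τ (by
        rw [hy, hk2]
        congr 2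
        rw [Nat.card_eq_fintype_card]
        exact Fintype.card_of_subtype _ (fun b => by simp)) (by rw [hτ, hk2])
    simp only [Finset.mem_filter, Finset.mem_univ, true_and] at h3
    refine le_trans ?_ h3
    refine mul_le_mul_of_nonneg_right ?_ (Nat.cast_nonneg _)
    rw [← hk2, hV', hq, Nat.card_eq_fintype_card]
    exact sub_le_sub_left
      (term_le (h := h) hC R (s := (2 * (Fintype.card Q : ℝ) ^ 2 + 2) ^ (m + 2)) (by positivity) h1 h2) _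
  · obtain ⟨S, hS, P, h1, h2⟩ := Frame.row_program (fine g) x0 R c
    refine ⟨S, ?_, P, h1, ?_⟩
    · rw [hcU, ← hV, ← hk2] at hS
      refine hS.trans (le_of_eq ?_)
      congr 2
      ring
    · rw [hcU, ← hV] at h2
      exact h2
  · obtain ⟨Q, Γ, h1, h2, P, h3, h4, h5⟩ := Frame.pushdown_program (fine g) x0 R c
      (by rw [hcU, ← hV, ← hk2]; exact hVk) (by omega)
    rw [hcU, ← hV] at h5
    rw [hcD, ← hk2] at h3 h4
    exact ⟨Q, Γ, h1, h2, P, h3, h4, h5⟩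

end Pool.Agent.Helper74.NW
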