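import Pool.Agent.Helper74.NW.Frame

/-!
# The main inequality
-/

namespace Pool.Agent.Helper74.NW

open Pool.Agent.Helper19.NF
open Pool.Agent.Helper74.NS (Expands)

theorem card_le_three {X : Type} [Finite X] {P Q₁ Q₂ Q₃ : X → Prop} (h : ∀ x, P x → Q₁ x ∨ Q₂ x ∨ Q₃ x) :
    Nat.card {x // P x} ≤ Nat.card {x // Q₁ x} + Nat.card {x // Q₂ x} + Nat.card {x // Q₃ x} := by
  classical
  have := Fintype.ofFinite X
  simp only [Nat.card_eq_fintype_card, Fintype.card_subtype]
  refine (Finset.card_le_card (t := (Finset.univ.filter Q₁ ∪ Finset.univ.filter Q₂) ∪ Finset.univ.filter Q₃)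
    fun x hx => ?_).trans ((Finset.card_union_le _ _).trans (Nat.add_le_add_right (Finset.card_union_le _ _) _))
  simp only [Finset.mem_union, Finset.mem_filter, Finset.mem_univ, true_and] at hx ⊢
  rcases h x hx with h1 | h1 | h1
  · exact Or.inl (Or.inl h1)
  · exact Or.inl (Or.inr h1)
  · exact Or.inr h1

variable {n d h : ℕ} {B : Type} [AddCommGroup B] [NeZero (2 * h)] {S : ℕ}

/-- The last term as a real number. -/
theorem good_real [Fintype B] {R T a X J : ℕ} (hT : 2 * T ≤ Fintype.card B) {τ : ℝ}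
    (hτ : τ = T / Fintype.card B)
    (h3 : X * (Fintype.card B ^ (2 * h)) ^ a ≤
      R * n.choose a * (d * (2 * h)) ^ a * S ^ 2 * ((4 * (T * (Fintype.card B - T))) ^ h) ^ a * J) :
    (X : ℝ) ≤ R * n.choose a * (S : ℝ) ^ 2 * (d * (2 * h) * (4 * τ * (1 - τ)) ^ h) ^ a * J := by
  have hk : 0 < (Fintype.card B : ℝ) := by
    have : 0 < Fintype.card B := Fintype.card_pos_iff.mpr ⟨0⟩
    exact_mod_cast this
  have hc : ((Fintype.card B - T : ℕ) : ℝ) = Fintype.card B - T := by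
    rw [Nat.cast_sub (by omega)]
  have h4 : R * n.choose a * (S : ℝ) ^ 2 * (d * (2 * h) * (4 * τ * (1 - τ)) ^ h) ^ a * J =
      (R * n.choose a * (d * (2 * h)) ^ a * S ^ 2 * ((4 * (T * (Fintype.card B - T))) ^ h) ^ a * J) /
        ((Fintype.card B : ℝ) ^ (2 * h)) ^ a := by
    have h5 : 4 * τ * (1 - τ) = (4 * (T * (Fintype.card B - T))) / (Fintype.card B : ℝ) ^ 2 := by
      rw [hτ]
      field_simp
    rw [h5, div_pow, ← pow_mul, mul_div_assoc', div_pow, mul_pow]
    ring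
  rw [h4, le_div_iff₀ (by positivity)]
  have h6 := (Nat.cast_le (α := ℝ)).mpr h3
  push_cast at h6
  rw [hc] at h6
  exact h6

/-- W8: the main inequality. -/
theorem main_bound [Fintype B] (P : NProg B (Fin d × Fin (2 * h) → B) B S)
    (g : Fin d → Equiv.Perm (Fin n)) (x0 : Fin n × Fin (2 * h) → B) (h0 : Function.Injective x0) {R T a p : ℕ}
    (hT : 2 * T ≤ Fintype.card B) (c : Fin d × Fin (2 * h)) (ha : 1 ≤ a) (hn : 8 * a ≤ n) (hE : Expands g a)
    (φ : B → B) (hφ : ∀ y, Nat.card {x // φ x = y} ≤ p) (τ : ℝ) (hτ : τ = T / Fintype.card B) :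
    (Nat.card {I : B → Fin d × Fin (2 * h) → B // (∃ l z, P.Ends I l z) ∧
        (∀ l z, P.Ends I l z → z = φ (res (fine g) x0 R c I)) ∧
        ∀ l z, P.Shortest I l z → Nat.card {b // b ∈ l} ≤ T ∧ min S l.length ≤ 2 ^ R} : ℝ) ≤
      ((3 * p + ((R + 1) * (n * (2 * h))) ^ 2) / Fintype.card B +
        R * n.choose a * (S : ℝ) ^ 2 * (d * (2 * h) * (4 * τ * (1 - τ)) ^ h) ^ a) *
          Nat.card (B → Fin d × Fin (2 * h) → B) := by
  have hk : 0 < (Fintype.card B : ℝ) := by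
    have : 0 < Fintype.card B := Fintype.card_pos_iff.mpr ⟨0⟩
    exact_mod_cast this
  have : Nonempty (Fin d × Fin (2 * h)) := ⟨c⟩
  have h1 := Frame.card_not_CF (fine g) x0 h0 R
  rw [Fintype.card_prod, Fintype.card_fin, Fintype.card_fin] at h1
  have h2 := Frame.root_bound P g x0 (R := R) (a := a) c hn (by omega) φ hφ
  have h3 := Frame.good_bound P (Fintype.equivFin B) (Fintype.equivFin B).injective g x0 (R := R) (T := T) hT ha hE
  have hsub := card_le_three (X := B → Fin d × Fin (2 * h) → B)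
    (P := fun I => (∃ l z, P.Ends I l z) ∧ (∀ l z, P.Ends I l z → z = φ (res (fine g) x0 R c I)) ∧
        ∀ l z, P.Shortest I l z → Nat.card {b // b ∈ l} ≤ T ∧ min S l.length ≤ 2 ^ R)
    (Q₁ := fun I => ¬ CF (fine g) x0 R I)
    (Q₂ := fun I => CF (fine g) x0 R I ∧ (∀ l z, P.Ends I l z → z = φ (res (fine g) x0 R c I)) ∧
          ∃ l z, P.Ends I l z ∧ (outs g x0 I R l).card < 2 * a)
    (Q₃ := fun I => CF (fine g) x0 R I ∧ ∃ l t, Best P (Fintype.equivFin B) I P.start l t ∧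
          Nat.card {c // c ∈ l} ≤ T ∧ 2 * a ≤ (outs g x0 I R l).card ∧ l.length ≤ 2 ^ R) (by
      rintro I ⟨⟨l₀, b₀, hl₀⟩, hr, hT'⟩
      by_cases hCF : CF (fine g) x0 R I
      · right
        obtain ⟨l, b, t, hb, ht, hs⟩ := exists_best (Fintype.equivFin B) hl₀
        obtain ⟨h4, h5⟩ := hT' l b hs
        by_cases ho : (outs g x0 I R l).card < 2 * a
        · exact Or.inl ⟨hCF, hr, l, b, hs.1, ho⟩
        · refine Or.inr ⟨hCF, l, t, hb, h4, not_lt.mp ho, ?_⟩
          have h6 := shortest_lt hs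
          rcases min_le_iff.mp h5 with h7 | h7
          · exact h6.le.trans h7
          · exact h7
      · exact Or.inl hCF)
  have h1' : (Nat.card {I : B → Fin d × Fin (2 * h) → B // ¬ CF (fine g) x0 R I} : ℝ) ≤
      ((R + 1) * (n * (2 * h))) ^ 2 / Fintype.card B * Nat.card (B → Fin d × Fin (2 * h) → B) := by
    rw [div_mul_eq_mul_div, le_div_iff₀ hk]
    exact_mod_cast h1
  have h2' : (Nat.card {I : B → Fin d × Fin (2 * h) → B // CF (fine g) x0 R I ∧
          (∀ l z, P.Ends I l z → z = φ (res (fine g) x0 R c I)) ∧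
          ∃ l z, P.Ends I l z ∧ (outs g x0 I R l).card < 2 * a} : ℝ) ≤
      3 * p / Fintype.card B * Nat.card (B → Fin d × Fin (2 * h) → B) := by
    rw [div_mul_eq_mul_div, le_div_iff₀ hk]
    exact_mod_cast h2
  have h3' := good_real (n := n) (d := d) (h := h) (S := S) hT hτ h3
  have h5 := (Nat.cast_le (α := ℝ)).mpr hsub
  push_cast at h5
  refine h5.trans ((add_le_add (add_le_add h1' h2') h3').trans (le_of_eq ?_))
  ring

end Pool.Agent.Helper74.NW
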