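import Pool.Agent.Helper74.NW.Basic
import Pool.Agent.Helper74.NS.Defs

/-!
# Windows and classes: definitions

The positions of a row are the pairs `(u, t)`: the letter `t` of the node `u`; there are `n` nodes with `2 h` letters.
The letter `(u, t)` of the row `i + 1` is the sum of the entries `(s, r)` of the cells given by the letters
`(g s u, t + r)` of the row `i`. So all the letters of the node `u` use the cells of all the letters of the nodes
`g s u`; the letter `(u, t)` uses the entry `(s, t' - t)` of the cell of the letter `(g s u, t')`.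
-/

namespace Pool.Agent.Helper74.NW

open Pool.Agent.Helper19.NF

variable {n d h : ℕ} {B : Type} [AddCommGroup B]

/-- The permutations of the letters. -/
def fine [NeZero (2 * h)] (g : Fin d → Equiv.Perm (Fin n)) (c : Fin d × Fin (2 * h)) :
    Equiv.Perm (Fin n × Fin (2 * h)) :=
  (g c.1).prodCongr (Equiv.addRight c.2)

theorem fine_apply [NeZero (2 * h)] (g : Fin d → Equiv.Perm (Fin n)) (c : Fin d × Fin (2 * h))
    (u : Fin n × Fin (2 * h)) : fine g c u = (g c.1 u.1, u.2 + c.2) := rfl

variable [NeZero (2 * h)]

open Classical in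
/-- The nodes of row `i` such that at least half of their letters are queried in the list. -/
noncomputable def outs (g : Fin d → Equiv.Perm (Fin n)) (x0 : Fin n × Fin (2 * h) → B)
    (I : B → Fin d × Fin (2 * h) → B) (i : ℕ) (l : List B) : Finset (Fin n) :=
  Finset.univ.filter (fun u => h ≤ (Finset.univ.filter (fun t => val (fine g) x0 I i (u, t) ∈ l)).card)

open Classical in
/-- The nodes of row `i` such that all their letters are queried in the list. -/
noncomputable def full (g : Fin d → Equiv.Perm (Fin n)) (x0 : Fin n × Fin (2 * h) → B)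
    (I : B → Fin d × Fin (2 * h) → B) (i : ℕ) (l : List B) : Finset (Fin n) :=
  Finset.univ.filter (fun u => ∀ t, val (fine g) x0 I i (u, t) ∈ l)

open Classical in
/-- The nodes of row `i + 1` such that at least half of their letters are queried in the list, but some letter of one
of the nodes `g s u` is not. -/
noncomputable def half (g : Fin d → Equiv.Perm (Fin n)) (x0 : Fin n × Fin (2 * h) → B)
    (I : B → Fin d × Fin (2 * h) → B) (i : ℕ) (l : List B) : Finset (Fin n) :=
  (outs g x0 I (i + 1) l).filter (fun u => ∃ c : Fin d × Fin (2 * h), val (fine g) x0 I i (g c.1 u, c.2) ∉ l)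

/-- The hole number `j`: the cell of the letter `(r j).2` of the node `g (r j).1 (u j)` of the row `i`. -/
def hole {a : ℕ} (g : Fin d → Equiv.Perm (Fin n)) (x0 : Fin n × Fin (2 * h) → B) (i : ℕ) (u : Fin a → Fin n)
    (r : Fin a → Fin d × Fin (2 * h)) (I : B → Fin d × Fin (2 * h) → B) (j : Fin a) : B :=
  val (fine g) x0 I i (g (r j).1 (u j), (r j).2)

open Classical in
/-- The change of the contents of the holes by `y`: the entry of the hole `j` used by the letter `t` of the node `u j`
changes by `y j t`. -/
noncomputable def chg {a : ℕ} (g : Fin d → Equiv.Perm (Fin n)) (x0 : Fin n × Fin (2 * h) → B) (i : ℕ)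
    (u : Fin a → Fin n) (r : Fin a → Fin d × Fin (2 * h)) (y : Fin a → Fin (2 * h) → B)
    (I : B → Fin d × Fin (2 * h) → B) : B → Fin d × Fin (2 * h) → B :=
  fun b c => ∑ j, ∑ t, if b = hole g x0 i u r I j ∧ c = ((r j).1, (r j).2 - t) then y j t else 0

open Classical in
/-- The instances with a window of the given kind. -/
def InX {a S K : ℕ} (P : NProg B (Fin d × Fin (2 * h) → B) B S) (e : B → Fin K) (g : Fin d → Equiv.Perm (Fin n))
    (x0 : Fin n × Fin (2 * h) → B) (T i : ℕ) (u : Fin a → Fin n) (r : Fin a → Fin d × Fin (2 * h)) (s t : Fin S)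
    (I : B → Fin d × Fin (2 * h) → B) : Prop :=
  CF (fine g) x0 i I ∧ ∃ w : List B, Best P e I s w t ∧ Nat.card {c // c ∈ w} ≤ T ∧
    ∀ j, h ≤ (Finset.univ.filter (fun t => val (fine g) x0 I (i + 1) (u j, t) ∈ w)).card ∧
      hole g x0 i u r I j ∉ w

end Pool.Agent.Helper74.NW
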